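import Pool.Agent.H61.NVK.TargetsE2
import Pool.Agent.H63.HK.DU

/-!
# Fractional ideals: norms, covolumes, denominators
-/

set_option autoImplicit false

namespace Pool.Agent.H25.NVE_FRI

open MeasureTheory Set Filter NumberField NumberField.InfinitePlace
open Pool.Agent.H65.CM4 Pool.Agent.H61.CM4 Pool.Agent.H61.NVK
open scoped Real nonZeroDivisors

section

variable (k : Type) [Field k] [NumberField k]

lemma dk_real : ((dk k : ℕ) : ℝ) = |(discr k : ℝ)| := by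
  unfold dk
  rw [Nat.cast_natAbs, Int.cast_abs]

lemma du_one_inv : (Pool.Agent.H25.HK.du k (1 : Pool.Agent.H25.HK.FI k)) =
    ((differentIdeal ℤ (𝓞 k) : Ideal (𝓞 k)) : Pool.Agent.H25.HK.FI k)⁻¹ := by
  have h1 : ((differentIdeal ℤ (𝓞 k) : Ideal (𝓞 k)) : Pool.Agent.H25.HK.FI k) =
      (Pool.Agent.H25.HK.du k (1 : Pool.Agent.H25.HK.FI k))⁻¹ :=
    coeIdeal_differentIdeal (A := ℤ) (B := 𝓞 k) ℚ k
  rw [h1, inv_inv]

lemma different_ne : ((differentIdeal ℤ (𝓞 k) : Ideal (𝓞 k)) : Pool.Agent.H25.HK.FI k) ≠ 0 := by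
  intro h
  have h1 := du_one_inv k
  rw [h, inv_zero] at h1
  have h2 : (Pool.Agent.H25.HK.du k (1 : Pool.Agent.H25.HK.FI k)) ≠ 0 :=
    FractionalIdeal.dual_ne_zero ℤ ℚ one_ne_zero
  exact h2 h1

/-- The norm of an ideal is a denominator of its inverse. -/
lemma dn_inv (c : Ideal (𝓞 k)) (hc : (c : Pool.Agent.H25.HK.FI k) ≠ 0) {w : k}
    (hw : w ∈ ((c : Pool.Agent.H25.HK.FI k))⁻¹) :
    ∃ y : 𝓞 k, (y : k) = ((Ideal.absNorm c : ℕ) : k) * w := by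
  rw [FractionalIdeal.mem_inv_iff hc] at hw
  have h1 : (((Ideal.absNorm c : ℕ) : 𝓞 k) : k) ∈ (c : Pool.Agent.H25.HK.FI k) :=
    (FractionalIdeal.mem_coeIdeal _).2 ⟨_, Ideal.absNorm_mem c, rfl⟩
  have h2 := hw _ h1
  rw [FractionalIdeal.mem_one_iff] at h2
  obtain ⟨y, hy⟩ := h2
  refine ⟨y, ?_⟩
  have h3 : (y : k) = w * (((Ideal.absNorm c : ℕ) : 𝓞 k) : k) := hy
  rw [h3, mul_comm]
  simp

end

theorem pf_FRI (hLIX : T_LIX) : T_FRI := by
  intro k _ _ _ a B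
  obtain ⟨hix, hix0, hna, hnB⟩ := hLIX k a B
  have ha : iF (a : Ideal (𝓞 k)) ≠ 0 := by
    unfold iF
    rw [Ne, FractionalIdeal.coeIdeal_eq_zero]
    exact nonZeroDivisors.coe_ne_zero a
  have hB : iF (B : Ideal (𝓞 k)) ≠ 0 := by
    unfold iF
    rw [Ne, FractionalIdeal.coeIdeal_eq_zero]
    exact nonZeroDivisors.coe_ne_zero B
  have hmul : iF ((a : Ideal (𝓞 k)) * (B : Ideal (𝓞 k))) =
      iF (B : Ideal (𝓞 k)) * iF (a : Ideal (𝓞 k)) := by
    unfold iF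
    rw [FractionalIdeal.coeIdeal_mul, mul_comm]
  have haB : iF ((a : Ideal (𝓞 k)) * (B : Ideal (𝓞 k))) ≠ 0 := by
    rw [hmul]; exact mul_ne_zero hB ha
  have hdu := Pool.Agent.H63.HK.du k
  have hDa := (hdu _ ha).1
  have hDaB := (hdu _ haB).1
  have hdk : ((dk k : ℕ) : ℝ) = |(discr k : ℝ)| := dk_real k
  have hdkpos : (0 : ℝ) < |(discr k : ℝ)| := by
    rw [abs_pos]
    exact_mod_cast discr_ne_zero k
  have hnFa : nF (iF (a : Ideal (𝓞 k))) = nm (a : Ideal (𝓞 k)) := by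
    unfold nF iF nm
    rw [FractionalIdeal.coeIdeal_absNorm]
    push_cast
    rfl
  have hnFB : nF (iF (B : Ideal (𝓞 k))) = nm (B : Ideal (𝓞 k)) := by
    unfold nF iF nm
    rw [FractionalIdeal.coeIdeal_absNorm]
    push_cast
    rfl
  have hnFaB : nF (iF ((a : Ideal (𝓞 k)) * (B : Ideal (𝓞 k)))) =
      nm (a : Ideal (𝓞 k)) * nm (B : Ideal (𝓞 k)) := by
    rw [hmul, ← hnFa, ← hnFB]
    unfold nF
    rw [map_mul]
    push_cast
    ring
  have hcF : ∀ I : Pool.Agent.H25.HK.FI k, cF I = Real.sqrt (dk k) * nF I := by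
    intro I
    rw [hdk]
    rfl
  have hsq : Real.sqrt (dk k) * Real.sqrt (dk k) = |(discr k : ℝ)| := by
    rw [Real.mul_self_sqrt (by positivity), hdk]
  have hDm : (Dm (Lb (a : Ideal (𝓞 k)) B) : ℝ) = cF (iF (a : Ideal (𝓞 k))) *
      cF (iF ((a : Ideal (𝓞 k)) * (B : Ideal (𝓞 k)))) := by
    rw [hcF, hcF, hnFa, hnFaB]
    have e : (Dm (Lb (a : Ideal (𝓞 k)) B) : ℝ) =
        (dk k : ℝ) * (ix (Lb (a : Ideal (𝓞 k)) B) : ℝ) := by
      unfold Dm; push_cast; ring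
    rw [e, hix, hdk]
    have : Real.sqrt (|(discr k : ℝ)|) * Real.sqrt (|(discr k : ℝ)|) = |(discr k : ℝ)| :=
      Real.mul_self_sqrt hdkpos.le
    linear_combination (-(nm (a : Ideal (𝓞 k)) ^ 2 * nm (B : Ideal (𝓞 k)))) * this
  have hDn1 : ∀ J : Ideal (𝓞 k), Dn 1 (iF J) := by
    intro J x hx
    obtain ⟨y, -, hy⟩ := (FractionalIdeal.mem_coeIdeal _).1 hx
    exact ⟨y, by
      have : (y : k) = x := hy
      rw [this]; simp⟩
  -- the denominators of the dual ideals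
  have hnat : ix (Lb (a : Ideal (𝓞 k)) B) =
      Ideal.absNorm (a : Ideal (𝓞 k)) ^ 2 * Ideal.absNorm (B : Ideal (𝓞 k)) := by
    have h := hix
    unfold nm at h
    exact_mod_cast h
  have hdiff : Ideal.absNorm (differentIdeal ℤ (𝓞 k)) = dk k := by
    rw [NumberField.absNorm_differentIdeal k (𝓞 k)]
    rfl
  have hdual : ∀ (c : Ideal (𝓞 k)) (q : ℕ), iF c ≠ 0 → Ideal.absNorm c * dk k ∣ q →
      Dn q (dF (iF c)) := by
    intro c q hc hq x hx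
    have e1 : dF (iF c) = ((c * differentIdeal ℤ (𝓞 k) : Ideal (𝓞 k)) :
        Pool.Agent.H25.HK.FI k)⁻¹ := by
      unfold dF
      rw [(hdu _ hc).2.2.1, du_one_inv k, FractionalIdeal.coeIdeal_mul, mul_inv]
      rfl
    rw [e1] at hx
    have hne : ((c * differentIdeal ℤ (𝓞 k) : Ideal (𝓞 k)) : Pool.Agent.H25.HK.FI k) ≠ 0 := by
      rw [FractionalIdeal.coeIdeal_mul]
      exact mul_ne_zero hc (different_ne k)
    obtain ⟨y, hy⟩ := dn_inv k _ hne hx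
    rw [map_mul, hdiff] at hy
    obtain ⟨r, hr⟩ := hq
    refine ⟨(r : 𝓞 k) * y, ?_⟩
    have e2 : (((r : 𝓞 k) * y : 𝓞 k) : k) = (r : k) * (y : k) := by simp
    rw [e2, hy, hr]
    push_cast
    ring
  have hcc : ∀ I : Pool.Agent.H25.HK.FI k, I ≠ 0 → dF (dF I) = I ∧ 0 < cF I ∧ 0 < nF I ∧
      cF I = Real.sqrt (dk k) * nF I ∧ cF (dF I) * cF I = 1 := by
    intro I hI
    obtain ⟨h1, h2, h3, h4, h5⟩ := hdu I hI
    have hs : 0 < Real.sqrt (dk k) := Real.sqrt_pos.2 (by rw [hdk]; exact hdkpos)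
    refine ⟨h2, ?_, h4, hcF I, ?_⟩
    · rw [hcF]
      exact mul_pos hs h4
    · rw [hcF, hcF]
      have : nF (dF I) * nF I * |(discr k : ℝ)| = 1 := h5
      calc Real.sqrt (dk k) * nF (dF I) * (Real.sqrt (dk k) * nF I) =
          nF (dF I) * nF I * (Real.sqrt (dk k) * Real.sqrt (dk k)) := by ring
        _ = 1 := by rw [hsq, this]
  refine ⟨ha, haB, hDa, hDaB, hmul, ?_, hcc, hnFa, hnFaB, hDm, hDn1 _, hDn1 _, ?_, ?_⟩
  · unfold dF
    rw [(hdu _ ha).2.2.1, (hdu _ haB).2.2.1, hmul, mul_inv]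
    rw [← mul_assoc, ← mul_assoc, mul_inv_cancel₀ hB, one_mul]
  · apply hdual _ _ ha
    unfold Dm
    rw [hnat]
    exact ⟨Ideal.absNorm (a : Ideal (𝓞 k)) * Ideal.absNorm (B : Ideal (𝓞 k)), by ring⟩
  · apply hdual _ _ haB
    unfold Dm
    rw [hnat, map_mul]
    exact ⟨Ideal.absNorm (a : Ideal (𝓞 k)), by ring⟩

end Pool.Agent.H25.NVE_FRI
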