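import Pool.Agent.H61.NVK.TargetsE2
import Pool.Agent.H3.HK.LB
import Pool.Agent.H21.CM4B.DUB

/-!
# Poisson summation for a fractional ideal
-/

set_option autoImplicit false

namespace Pool.Agent.H25.NVE_PSF

open MeasureTheory Set Filter NumberField NumberField.InfinitePlace
open Pool.Agent.H65.CM4 Pool.Agent.H61.CM4 Pool.Agent.H61.NVK
open scoped Real nonZeroDivisors

section

variable {k : Type} [Field k] [NumberField k] [IsTotallyReal k]

/-- The matrix of a basis. -/
noncomputable def mA {ι : Type} (e : ι ≃ Pl k) (y : Pl k → ℝ) (b : ι → k) : Matrix ι ι ℝ :=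
  fun i j => Real.exp (y (e i) / 2) * rv (e i) (b j)

lemma mA_mulVec {ι : Type} [Fintype ι] (e : ι ≃ Pl k) (y : Pl k → ℝ) (b : ι → k) (m : ι → ℤ)
    (i : ι) : (mA e y b).mulVec (fun i => (m i : ℝ)) i =
      Real.exp (y (e i) / 2) * rv (e i) (∑ j, m j • b j) := by
  simp only [Matrix.mulVec, dotProduct, mA]
  rw [map_sum, Finset.mul_sum]
  apply Finset.sum_congr rfl
  intro j _
  rw [map_zsmul, zsmul_eq_mul]
  ring

lemma tr_sum {ι : Type} [Fintype ι] (e : ι ≃ Pl k) (x : k) :
    ∑ i, rv (e i) x = ((Algebra.trace ℚ k x : ℚ) : ℝ) := by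
  rw [← Pool.Agent.H21.CM4B.sum_rv x]
  exact e.sum_comp (fun v => rv v x)

lemma mA_mul {ι : Type} [Fintype ι] [DecidableEq ι] (e : ι ≃ Pl k) (y : Pl k → ℝ)
    (b b' : ι → k) (h : ∀ i j, Algebra.trace ℚ k (b i * b' j) = if i = j then 1 else 0) :
    (mA e y b).transpose * mA e (-y) b' = 1 := by
  ext j l
  rw [Matrix.mul_apply]
  simp only [Matrix.transpose_apply, mA, Pi.neg_apply]
  have e1 : ∀ i, Real.exp (y (e i) / 2) * rv (e i) (b j) *
      (Real.exp (-y (e i) / 2) * rv (e i) (b' l)) = rv (e i) (b j * b' l) := by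
    intro i
    rw [map_mul]
    have : Real.exp (y (e i) / 2) * Real.exp (-y (e i) / 2) = 1 := by
      rw [← Real.exp_add]
      have : y (e i) / 2 + -y (e i) / 2 = 0 := by ring
      rw [this, Real.exp_zero]
    calc _ = (Real.exp (y (e i) / 2) * Real.exp (-y (e i) / 2)) *
        (rv (e i) (b j) * rv (e i) (b' l)) := by ring
      _ = _ := by rw [this, one_mul]
  rw [Finset.sum_congr rfl (fun i _ => e1 i), tr_sum, h]
  rw [Matrix.one_apply]
  split_ifs <;> simp

lemma mA_det {ι : Type} [Fintype ι] [DecidableEq ι] (e : ι ≃ Pl k) (y : Pl k → ℝ)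
    (b : Module.Basis ι ℚ k) : (mA e y b).det ^ 2 =
      Real.exp (∑ v, y v) * ((Algebra.discr ℚ b : ℚ) : ℝ) := by
  have e1 : (mA e y b) = Matrix.diagonal (fun i => Real.exp (y (e i) / 2)) * mA e 0 b := by
    ext i j
    rw [Matrix.diagonal_mul]
    simp [mA]
  have e2 : (mA e 0 b).transpose * mA e 0 b =
      (Algebra.traceMatrix ℚ b).map (fun x : ℚ => (x : ℝ)) := by
    ext j l
    rw [Matrix.mul_apply, Matrix.map_apply, Algebra.traceMatrix_apply, Algebra.traceForm_apply,
      ← tr_sum e]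
    apply Finset.sum_congr rfl
    intro i _
    simp only [Matrix.transpose_apply, mA, Pi.zero_apply, zero_div, Real.exp_zero, one_mul,
      map_mul]
  have e3 : (mA e 0 b).det ^ 2 = ((Algebra.discr ℚ b : ℚ) : ℝ) := by
    have h := congrArg Matrix.det e2
    rw [Matrix.det_mul, Matrix.det_transpose] at h
    rw [pow_two, h, Algebra.discr_def]
    exact (RingHom.map_det (Rat.castHom ℝ) (Algebra.traceMatrix ℚ b)).symm
  rw [e1, Matrix.det_mul, mul_pow, e3, Matrix.det_diagonal]
  congr 1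
  rw [← Finset.prod_pow]
  have : ∀ i, Real.exp (y (e i) / 2) ^ 2 = Real.exp (y (e i)) := by
    intro i
    rw [pow_two, ← Real.exp_add]
    congr 1; ring
  rw [Finset.prod_congr rfl (fun i _ => this i), ← Real.exp_sum]
  congr 1
  exact e.sum_comp (fun v => y v)

end

/-- Sums over the integral combinations of a basis. -/
lemma sum_basis {k : Type} [Field k] [NumberField k] {ι : Type} [Fintype ι]
    (b : Module.Basis ι ℚ k) (I : Pool.Agent.H25.HK.FI k) [DecidablePred (fun r : k => r ∈ I)]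
    (hI : ∀ x : k, x ∈ I ↔ ∃ m : ι → ℤ, ∑ i, m i • b i = x) (f : k → ℝ) :
    (Summable (fun m : ι → ℤ => f (∑ i, m i • b i)) →
      Summable (fun r : k => if r ∈ I then f r else 0)) ∧
    ∑' r : k, (if r ∈ I then f r else 0) = ∑' m : ι → ℤ, f (∑ i, m i • b i) := by
  have hinj : Function.Injective (fun m : ι → ℤ => ∑ i, m i • b i) := by
    intro m m' h
    have h1 : ∑ i, ((m i : ℤ) : ℚ) • b i = ∑ i, ((m' i : ℤ) : ℚ) • b i := by
      have e : ∀ m : ι → ℤ, ∑ i, ((m i : ℤ) : ℚ) • b i = ∑ i, m i • b i := by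
        intro m
        apply Finset.sum_congr rfl
        intro i _
        exact Int.cast_smul_eq_zsmul ℚ (m i) (b i)
      rw [e, e]
      exact h
    funext i
    have h2 := congrArg (fun x => b.repr x i) h1
    rw [b.repr_sum_self, b.repr_sum_self] at h2
    exact_mod_cast h2
  have hr : ∀ m : ι → ℤ, ∑ i, m i • b i ∈ I := fun m => (hI _).2 ⟨m, rfl⟩
  have hcomp : ∀ m : ι → ℤ, (fun r : k => if r ∈ I then f r else 0) (∑ i, m i • b i) =
      f (∑ i, m i • b i) := by
    intro m
    simp only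
    rw [if_pos (hr m)]
  constructor
  · intro hs
    rw [← hinj.summable_iff]
    · refine hs.congr ?_
      intro m
      exact (hcomp m).symm
    · intro x hx
      rw [if_neg]
      intro hxI
      obtain ⟨m, hm⟩ := (hI x).1 hxI
      exact hx ⟨m, hm⟩
  · rw [← hinj.tsum_eq]
    · exact tsum_congr hcomp
    · intro x hx
      rw [Function.mem_support] at hx
      by_contra hcon
      apply hx
      rw [if_neg]
      intro hxI
      obtain ⟨m, hm⟩ := (hI x).1 hxI
      exact hcon ⟨m, hm⟩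

theorem pf_PSF (hPOS : T_POS) : T_PSF := by
  intro k _ _ _ I y p hI
  obtain ⟨ι, _, _, b, b', htr, hbI, hbD, hdisc⟩ := Pool.Agent.H3.HK.lb k I hI
  have hcard : Fintype.card ι = Fintype.card (Pl k) := by
    have h1 : Module.finrank ℚ k = Fintype.card ι := Module.finrank_eq_card_basis b
    have h3 : Fintype.card (Pl k) = nrRealPlaces k + nrComplexPlaces k :=
      InfinitePlace.card_eq_nrRealPlaces_add_nrComplexPlaces k
    rw [← h1, h3, IsTotallyReal.nrComplexPlaces_eq_zero, IsTotallyReal.finrank, add_zero]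
  set e : ι ≃ Pl k := Fintype.equivOfCardEq hcard with he
  set A := mA e y b with hA
  have hAA := mA_mul e y b b' htr
  have hdet : A.det ≠ 0 := by
    intro h0
    have := congrArg Matrix.det hAA
    rw [Matrix.det_mul, Matrix.det_transpose, ← hA, h0, zero_mul, Matrix.det_one] at this
    exact zero_ne_one this
  have hinv : (A⁻¹).transpose = mA e (-y) b' := by
    rw [Matrix.transpose_nonsing_inv]
    exact Matrix.inv_eq_right_inv hAA
  have hcpos : 0 < cF I := by
    have h1 := (Algebra.discr_not_zero_of_basis ℚ b)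
    have h2 : 0 < |((Algebra.discr ℚ b : ℚ) : ℝ)| := by
      rw [abs_pos]
      exact_mod_cast h1
    rw [hdisc] at h2
    have h3 : 0 ≤ cF I := by
      unfold cF Pool.Agent.H25.HK.cv
      have := FractionalIdeal.absNorm_nonneg I
      have : (0 : ℝ) ≤ (FractionalIdeal.absNorm I : ℝ) := by exact_mod_cast this
      positivity
    have h4 : cF I ≠ 0 := by
      intro h5
      have : Pool.Agent.H25.HK.cv k I = 0 := h5
      rw [this] at h2
      norm_num at h2
    exact lt_of_le_of_ne h3 (Ne.symm h4)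
  have hdetabs : |A.det| = Real.exp ((∑ v, y v) / 2) * cF I := by
    have h1 := mA_det e y b
    have h2 : |A.det| ^ 2 = (Real.exp ((∑ v, y v) / 2) * cF I) ^ 2 := by
      rw [sq_abs, h1, mul_pow]
      have h3 : Real.exp ((∑ v, y v) / 2) ^ 2 = Real.exp (∑ v, y v) := by
        rw [pow_two, ← Real.exp_add]
        congr 1; ring
      rw [h3]
      have h4 : 0 ≤ ((Algebra.discr ℚ b : ℚ) : ℝ) := by
        have h5 : 0 ≤ A.det ^ 2 := sq_nonneg _
        rw [h1] at h5
        exact nonneg_of_mul_nonneg_right h5 (Real.exp_pos _)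
      rw [abs_of_nonneg h4] at hdisc
      rw [hdisc]
      rfl
    have h6 : 0 ≤ Real.exp ((∑ v, y v) / 2) * cF I := by positivity
    exact (pow_left_inj₀ (abs_nonneg _) h6 two_ne_zero).1 h2
  obtain ⟨s1, s2, s3⟩ := hPOS ι A (fun i => Real.exp (y (e i) / 2) * p (e i)) hdet
  have t1 : ∀ m : ι → ℤ, Real.exp (-π * ∑ i, (A.mulVec (fun i => (m i : ℝ)) i +
      Real.exp (y (e i) / 2) * p (e i)) ^ 2) =
      Real.exp (-π * ∑ v, Real.exp (y v) * (rv v (∑ i, m i • b i) + p v) ^ 2) := by
    intro m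
    congr 2
    rw [← e.sum_comp]
    apply Finset.sum_congr rfl
    intro i _
    rw [hA, mA_mulVec]
    have : Real.exp (y (e i)) = Real.exp (y (e i) / 2) ^ 2 := by
      rw [pow_two, ← Real.exp_add]
      congr 1; ring
    rw [this]
    ring
  have t2 : ∀ m : ι → ℤ, ∑ i, ((A⁻¹).transpose.mulVec (fun i => (m i : ℝ)) i) ^ 2 =
      ∑ v, Real.exp (-y v) * rv v (∑ i, m i • b' i) ^ 2 := by
    intro m
    rw [← e.sum_comp]
    apply Finset.sum_congr rfl
    intro i _
    rw [hinv, mA_mulVec]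
    have : Real.exp (-y (e i)) = Real.exp ((-y) (e i) / 2) ^ 2 := by
      rw [pow_two, ← Real.exp_add]
      congr 1
      simp only [Pi.neg_apply]
      ring
    rw [this]
    ring
  have t3 : ∀ m : ι → ℤ, ∑ i, (A⁻¹).transpose.mulVec (fun i => (m i : ℝ)) i *
      (Real.exp (y (e i) / 2) * p (e i)) = ∑ v, rv v (∑ i, m i • b' i) * p v := by
    intro m
    rw [← e.sum_comp]
    apply Finset.sum_congr rfl
    intro i _
    rw [hinv, mA_mulVec]
    have : Real.exp ((-y) (e i) / 2) * Real.exp (y (e i) / 2) = 1 := by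
      rw [← Real.exp_add]
      have : (-y) (e i) / 2 + y (e i) / 2 = 0 := by
        simp only [Pi.neg_apply]; ring
      rw [this, Real.exp_zero]
    calc _ = (Real.exp ((-y) (e i) / 2) * Real.exp (y (e i) / 2)) *
        (rv (e i) (∑ j, m j • b' j) * p (e i)) := by ring
      _ = _ := by rw [this, one_mul]
  classical
  have hsI := sum_basis b I hbI (fun r => Real.exp (-π * ∑ v, Real.exp (y v) *
    (rv v r + p v) ^ 2))
  have hsD := sum_basis b' (dF I) hbD (fun m => Real.exp (-π * ∑ v, Real.exp (-y v) *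
    rv v m ^ 2))
  have hsC := sum_basis b' (dF I) hbD (fun m => Real.exp (-π * ∑ v, Real.exp (-y v) *
    rv v m ^ 2) * Real.cos (2 * π * ∑ v, rv v m * p v))
  refine ⟨?_, ?_, ?_⟩
  · have := hsI.1 (s1.congr t1)
    exact this
  · have := hsD.1 (s2.congr (fun m => by rw [t2 m]))
    exact this
  · have h1 := hsI.2
    have h2 := hsC.2
    rw [tsum_congr t1] at s3
    have h3 : ∑' m : ι → ℤ, Real.exp (-π * ∑ i, ((A⁻¹).transpose.mulVec
        (fun i => (m i : ℝ)) i) ^ 2) * Real.cos (2 * π * ∑ i, (A⁻¹).transpose.mulVec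
        (fun i => (m i : ℝ)) i * (Real.exp (y (e i) / 2) * p (e i))) =
        ∑' m : ι → ℤ, Real.exp (-π * ∑ v, Real.exp (-y v) * rv v (∑ i, m i • b' i) ^ 2) *
          Real.cos (2 * π * ∑ v, rv v (∑ i, m i • b' i) * p v) := by
      apply tsum_congr
      intro m
      rw [t2 m, t3 m]
    rw [h3, ← h2, ← h1, hdetabs] at s3
    refine s3.trans ?_
    congr 1
    rw [mul_inv, ← Real.exp_neg, div_eq_mul_inv]
    congr 2
    ring

end Pool.Agent.H25.NVE_PSF
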